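import Pool.Agent.J6H32.SR.Split

/-!
# Stark's conjecture over complex cubic fields and the prime ideals with given Artin symbols

Let `K` be a complex cubic field, `𝔣 ≠ 𝓞 K` a nonzero ideal, `H / K` a finite abelian extension with
Galois group `G` which is unramified outside `𝔣` and infinity, for example the narrow ray class field
`K(𝔣)`, and `w₀` a place of `H` over the complex place of `K`.

`Stark` is the question: there is a `u` in `H^*` with the properties 1, 2, 3. `StarkAt 𝔭` is its version
for the prime ideal `𝔭`: a unit `x ≡ 1` modulo all prime ideals over `𝔭` with the absolute values given by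
the derivatives at `s = 0` of the functions `ζ_𝔣 (ρ, s) - N𝔭^(1-s) ζ_𝔣 (σ_𝔭⁻¹ ρ, s)`. `PowerStark` is
`Stark` with the following condition in place of 3: for all `ρ` in `G` and all `k` for which `ρ` acts on
the `e`-th roots of unity of `H` as `ζ ↦ ζ ^ k` the quotient `u^ρ / u^k` is an `e`-th power in `H`. This
is the condition that the `u^(N𝔞 - σ_𝔞)` are `e`-th powers in `H`, which follows from 3.

For `σ` in `G` let `d σ` be the density, among the prime ideals with the Artin symbol `σ`, of the prime
ideals `𝔭` for which `StarkAt 𝔭` is true.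

Theorem. The `d σ` exist. Let `S` be a nonempty subset of `G` such that the Sylow subgroups of `G / ⟨S⟩`
for the prime divisors of `e` are cyclic, for example `S = {1}` for a cyclic group `G`. Then `Stark` is
true if and only if `d σ > 1/2` for all `σ` in `S`. For all `G` the condition `d 1 > 1/2` is equivalent to
`PowerStark`. If not all `d σ` are zero, then there are a positive integer `n` and a subgroup `B` of `G`
with `d σ = 1/n` for all `σ` in `B` and `d σ = 0` for all other `σ`.

For the proof let `m` be a positive integer and `u` an element of `H^*` such that the condition 2 is true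
for `u^(1/m)`, with the factor `1` in place of `1 / e`. Let `Γ` be the Galois group over `K` of the
normal closure of `H (u^(1/m))`, `Z` its centre and `Γ'` the subgroup which fixes `H`. Then `StarkAt 𝔭` is
true if and only if the Frobenius automorphism of `𝔭` is in `Z`, so that `B` is the image of `Z` in `G`
and `n` the index of `Z ∩ Γ'` in `Γ'`. For `n = 1` the commutators of `Γ` give an alternating bilinear
map on `G / B` with values in the `e`-th roots of unity.
-/

set_option autoImplicit false

open NumberField IsDedekindDomain Filter Topology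

namespace Pool.Agent.Results.MP_d9f52e_nt.ArtinClasses

open Pool.Agent.J6H32.SR

/-- `K` is a complex cubic field: a cubic field with exactly one complex place. -/
def ComplexCubic (K : Type) [Field K] [NumberField K] : Prop :=
  Module.finrank ℚ K = 3 ∧ InfinitePlace.nrRealPlaces K = 1 ∧ InfinitePlace.nrComplexPlaces K = 1

theorem result (K H G : Type) [Field K] [NumberField K] [Field H] [NumberField H] [Algebra K H]
    [CommGroup G] [Finite G] [MulSemiringAction G H] [IsGaloisGroup G K H] (_hK : ComplexCubic K)
    (𝔣 : Ideal (𝓞 K)) (h𝔣 : 𝔣 ≠ ⊥) (_h𝔣' : 𝔣 ≠ ⊤) (D : ZetaData K H G 𝔣) (w₀ : InfinitePlace H)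
    (_hw₀ : (w₀.comap (algebraMap K H)).IsComplex) :
    ∃ d : G → ℝ,
      -- the densities
      (∀ σ : G, Tendsto (proportionIn (D.Symbol σ) (D.StarkAt w₀)) atTop (𝓝 (d σ))) ∧
      -- the cyclic case
      (IsCyclic G → (D.Stark w₀ ↔ 1 / 2 < d 1)) ∧
      -- a few Artin symbols are enough
      (∀ S : Set G, S.Nonempty → (∀ p : ℕ, p.Prime → p ∣ Units.torsionOrder H →
          ∀ P : Sylow p (G ⧸ Subgroup.closure S), IsCyclic P) →
        (D.Stark w₀ ↔ ∀ σ ∈ S, 1 / 2 < d σ)) ∧
      -- the power condition
      (D.PowerStark w₀ ↔ 1 / 2 < d 1) ∧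
      -- the values
      ((∀ σ : G, d σ = 0) ∨ ∃ (B : Subgroup G) (n : ℕ), 0 < n ∧
        (∀ σ ∈ B, d σ = 1 / n) ∧ ∀ σ : G, σ ∉ B → d σ = 0) := by
  have hfin : {𝔭 : HeightOneSpectrum (𝓞 K) | 𝔣 ≤ 𝔭.asIdeal}.Finite := by
    refine (Ideal.finite_factors h𝔣).subset ?_
    intro 𝔭 h𝔭
    exact Ideal.dvd_iff_le.2 h𝔭
  obtain ⟨d, h1, h2, h3, h4⟩ := class_main (K := K) (fun ρ : G => deriv (D.zeta ρ) 0) w₀
    hfin.toFinset (fun v hv => D.unramified v (by simpa using hv)) (fun v => D.art v.asIdeal)
    (fun v hv => D.art_frob v (by simpa using hv)) D.Symbol (by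
      intro ρ v hv
      have hv' : ¬ 𝔣 ≤ v.asIdeal := by simpa using hv
      exact ⟨fun h => h.2, fun h => ⟨hv', h⟩⟩)
  refine ⟨d, h1, fun hcyc => ?_, h2, h3, h4⟩
  have h5 := h2 {1} (Set.singleton_nonempty 1) (by
    intro p _ _ P
    infer_instance)
  exact h5.trans ⟨fun h => h 1 rfl, fun h σ hσ => by rw [Set.mem_singleton_iff.1 hσ]; exact h⟩

end Pool.Agent.Results.MP_d9f52e_nt.ArtinClasses
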