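import Pool.Agent.J6H32.SR.Pairs
import Pool.Agent.J6H32.SR.Defs2

/-!
# Stark's conjecture over complex cubic fields and pairs of prime ideals: a law with the constant 5/8

Let `K` be a complex cubic field, `𝔣 ≠ 𝓞 K` a nonzero ideal, `H / K` a finite abelian extension which is
unramified outside `𝔣` and infinity, for example the narrow ray class field `K(𝔣)`, and `w₀` a place of
`H` over the complex place of `K`.

`Stark` is the question: there is a `u` in `H^*` with the properties 1, 2, 3. `StarkAtPair 𝔭 𝔮` is its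
version for the set of two prime ideals `𝔭`, `𝔮`: a unit `x ≡ 1` modulo all prime ideals over `𝔭` and over
`𝔮` with the absolute values given by the derivatives at `s = 0` of the zeta functions modified at `𝔭` and
`𝔮`. It is weaker than the version for `𝔭` alone.

Theorem. If `Stark` is true then the proportion of the pairs `(𝔭, 𝔮)` with `StarkAtPair 𝔭 𝔮` tends to one;
if `Stark` is false its upper limit is at most `5/8`. So `Stark` is true if and only if
`StarkAtPair 𝔭 𝔮` is true for more than `5/8` of all pairs.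

The constant is that of Gustafson's theorem on the pairs of commuting elements of a finite group: let
`m` be a positive integer and `u` an element of `H^*` such that the condition 2 is true for `u^(1/m)`,
with the factor `1` in place of `1 / e`, and let `Γ` be the Galois group over `K` of the normal closure of
`H (u^(1/m))`. If `StarkAtPair 𝔭 𝔮` is true then the Frobenius automorphisms of `𝔭` and `𝔮` in `Γ` commute.
If `Γ` is commutative then `Stark` is true.
-/

set_option autoImplicit false

open NumberField IsDedekindDomain Filter Topology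

namespace Pool.Agent.Results.MP_d9f52e_nt.PairsOfPrimes

open Pool.Agent.J6H32.SR

/-- `K` is a complex cubic field: a cubic field with exactly one complex place. -/
def ComplexCubic (K : Type) [Field K] [NumberField K] : Prop :=
  Module.finrank ℚ K = 3 ∧ InfinitePlace.nrRealPlaces K = 1 ∧ InfinitePlace.nrComplexPlaces K = 1

theorem result (K H G : Type) [Field K] [NumberField K] [Field H] [NumberField H] [Algebra K H]
    [CommGroup G] [Finite G] [MulSemiringAction G H] [IsGaloisGroup G K H] (_hK : ComplexCubic K)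
    (𝔣 : Ideal (𝓞 K)) (h𝔣 : 𝔣 ≠ ⊥) (_h𝔣' : 𝔣 ≠ ⊤) (D : ZetaData K H G 𝔣) (w₀ : InfinitePlace H)
    (_hw₀ : (w₀.comap (algebraMap K H)).IsComplex) :
    (D.Stark w₀ → Tendsto (pairProp (D.StarkAtPair w₀)) atTop (𝓝 1)) ∧
    (¬ D.Stark w₀ → ∀ c : ℝ, 5 / 8 < c → ∀ᶠ X : ℕ in atTop, pairProp (D.StarkAtPair w₀) X < c) ∧
    (D.Stark w₀ ↔ ∃ c : ℝ, 5 / 8 < c ∧ ∀ᶠ X : ℕ in atTop, c ≤ pairProp (D.StarkAtPair w₀) X) := by
  have hfin : {𝔭 : HeightOneSpectrum (𝓞 K) | 𝔣 ≤ 𝔭.asIdeal}.Finite := by
    refine (Ideal.finite_factors h𝔣).subset ?_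
    intro 𝔭 h𝔭
    exact Ideal.dvd_iff_le.2 h𝔭
  have hmain := pairs (K := K) (fun ρ : G => deriv (D.zeta ρ) 0) w₀ hfin.toFinset
    (fun v hv => D.unramified v (by simpa using hv)) (fun v => D.art v.asIdeal)
    (fun v hv => D.art_frob v (by simpa using hv))
  have h1 : D.Stark w₀ → Tendsto (pairProp (D.StarkAtPair w₀)) atTop (𝓝 1) := hmain.1
  have h2 : ¬ D.Stark w₀ → ∀ c : ℝ, 5 / 8 < c → ∀ᶠ X : ℕ in atTop,
    pairProp (D.StarkAtPair w₀) X < c := hmain.2
  refine ⟨h1, h2, fun h => ?_, ?_⟩
  · exact ⟨3 / 4, by norm_num, (h1 h).eventually_const_le (by norm_num)⟩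
  · rintro ⟨c, hc, hX⟩
    by_contra hcon
    obtain ⟨X, hX1, hX2⟩ := (hX.and (h2 hcon c hc)).exists
    linarith

end Pool.Agent.Results.MP_d9f52e_nt.PairsOfPrimes
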