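import Pool.Agent.J6H32.SR.Defs4
import Pool.Agent.J6H32.SR.Ell

/-!
# Stark's conjecture over complex cubic fields: the parts at the prime numbers

Let `K` be a complex cubic field, `𝔣 ≠ 𝓞 K` a nonzero ideal, `H / K` a finite abelian extension which is
unramified outside `𝔣` and infinity, for example the narrow ray class field `K(𝔣)`, and `w₀` a place of
`H` over the complex place of `K`.

`Stark` is the question: there is a `u` in `H^*` with the properties 1, 2, 3. For a prime number `ℓ` let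
`StarkPart ℓ` be its part at `ℓ`: there are a number `n` which is not divisible by `ℓ` and a `u` in `H^*`
with the properties 1, 2, 3 for `n ζ'_𝔣 (ρ, 0)` in place of `ζ'_𝔣 (ρ, 0)`. In the same way
`StarkAtPart ℓ 𝔭` is the part at `ℓ` of the version of the question for the prime ideal `𝔭`: a unit
`x ≡ 1` modulo all prime ideals over `𝔭` with the absolute values given by `n` times the derivatives at
`s = 0` of the functions `ζ_𝔣 (ρ, s) - N𝔭^(1-s) ζ_𝔣 (σ_𝔭⁻¹ ρ, s)`.

Theorem. `Stark` is true if and only if `StarkPart ℓ` is true for all prime numbers `ℓ`, and `StarkPart ℓ`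
is true if and only if the `𝔭` for which `StarkAtPart ℓ 𝔭` is true make up more than the part `1 / (2 ℓ)`
of all prime ideals. More precisely, either `StarkPart ℓ` and all the `StarkAtPart ℓ 𝔭` are false, or there
are a finite Galois extension `K' / K` and a finite set of prime ideals outside of which
`StarkAtPart ℓ 𝔭` is true exactly for the `𝔭` which split completely in `K'`; then `StarkPart ℓ` is true if
and only if `K' = K`, and for `K' ≠ K` the degree of `K'` is divisible by `ℓ` and `K' / K` is not cyclic.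

For the proof let `q` be a power of `ℓ`, `n` prime to `ℓ` and `u` an element of `H^*` such that the
condition 2 is true for `n ζ'_𝔣 (ρ, 0)` and `u^(1/q)`, with the factor `1` in place of `1 / e`. Let `Γ`
be the Galois group over `K` of the normal closure of `H (u^(1/q))`, modulo the subgroup which fixes the
conjugates of `u^(1/q)`. Then `StarkAtPart ℓ 𝔭` is true if and only if the Frobenius automorphism of `𝔭`
is in the centre `Z` of `Γ`. The orders of all commutators of `Γ` are powers of `ℓ`, and such a group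
with `Γ ≠ Z` has an index `[Γ : Z]` which is divisible by `ℓ` and not equal to `ℓ`.
-/

set_option autoImplicit false

open NumberField IsDedekindDomain Filter Topology

namespace Pool.Agent.Results.MP_d9f52e_nt.PrimeParts

open Pool.Agent.J6H32.SR
open Pool.Agent.K3h30.RS (SplitsIn)

/-- `K` is a complex cubic field: a cubic field with exactly one complex place. -/
def ComplexCubic (K : Type) [Field K] [NumberField K] : Prop :=
  Module.finrank ℚ K = 3 ∧ InfinitePlace.nrRealPlaces K = 1 ∧ InfinitePlace.nrComplexPlaces K = 1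

/-- The number of the prime ideals of norm at most `X` with the property `P`, divided by the number of
the prime numbers up to `X`. -/
noncomputable def proportion {K : Type} [Field K] [NumberField K]
    (P : HeightOneSpectrum (𝓞 K) → Prop) (X : ℕ) : ℝ :=
  (Nat.card {𝔭 : HeightOneSpectrum (𝓞 K) // P 𝔭 ∧ Ideal.absNorm 𝔭.asIdeal ≤ X} : ℝ) /
    (Nat.primeCounting X : ℝ)

theorem result (K H G : Type) [Field K] [NumberField K] [Field H] [NumberField H] [Algebra K H]
    [CommGroup G] [Finite G] [MulSemiringAction G H] [IsGaloisGroup G K H] (_hK : ComplexCubic K)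
    (𝔣 : Ideal (𝓞 K)) (h𝔣 : 𝔣 ≠ ⊥) (_h𝔣' : 𝔣 ≠ ⊤) (D : ZetaData K H G 𝔣) (w₀ : InfinitePlace H)
    (_hw₀ : (w₀.comap (algebraMap K H)).IsComplex) :
    -- the parts
    (D.Stark w₀ ↔ ∀ ℓ : ℕ, ℓ.Prime → D.StarkPart w₀ ℓ) ∧
    ∀ ℓ : ℕ, ℓ.Prime →
      -- more than `1 / (2 ℓ)` of the prime ideals
      (D.StarkPart w₀ ℓ ↔ ∃ c : ℝ, 1 / (2 * ℓ) < c ∧
        ∀ᶠ X : ℕ in atTop, c ≤ proportion (D.StarkAtPart w₀ ℓ) X) ∧
      -- the field
      ((¬ D.StarkPart w₀ ℓ ∧ ∀ 𝔭 : HeightOneSpectrum (𝓞 K), ¬ D.StarkAtPart w₀ ℓ 𝔭) ∨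
        ∃ (K' : Type) (_ : Field K') (_ : NumberField K') (_ : Algebra K K')
          (bad : Finset (HeightOneSpectrum (𝓞 K))), IsGalois K K' ∧
          (∀ 𝔭 : HeightOneSpectrum (𝓞 K), 𝔭 ∉ bad → (D.StarkAtPart w₀ ℓ 𝔭 ↔ SplitsIn K' 𝔭)) ∧
          Tendsto (proportion (D.StarkAtPart w₀ ℓ)) atTop (𝓝 (1 / (Module.finrank K K' : ℝ))) ∧
          (D.StarkPart w₀ ℓ ↔ Module.finrank K K' = 1) ∧
          (Module.finrank K K' ≠ 1 → ℓ ∣ Module.finrank K K' ∧ ¬ IsCyclic (K' ≃ₐ[K] K'))) := by
  have hfin : {𝔭 : HeightOneSpectrum (𝓞 K) | 𝔣 ≤ 𝔭.asIdeal}.Finite := by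
    refine (Ideal.finite_factors h𝔣).subset ?_
    intro 𝔭 h𝔭
    exact Ideal.dvd_iff_le.2 h𝔭
  refine ⟨sk_iff_sl (K := K) (fun ρ : G => deriv (D.zeta ρ) 0) w₀ hfin.toFinset
    (fun v hv => D.unramified v (by simpa using hv)) (fun v => D.art v.asIdeal)
    (fun v hv => D.art_frob v (by simpa using hv)), fun ℓ hℓ => ?_⟩
  have hmain : (¬ D.StarkPart w₀ ℓ ∧ ∀ 𝔭 : HeightOneSpectrum (𝓞 K), ¬ D.StarkAtPart w₀ ℓ 𝔭) ∨
        ∃ (K' : Type) (_ : Field K') (_ : NumberField K') (_ : Algebra K K')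
          (bad : Finset (HeightOneSpectrum (𝓞 K))), IsGalois K K' ∧
          (∀ 𝔭 : HeightOneSpectrum (𝓞 K), 𝔭 ∉ bad → (D.StarkAtPart w₀ ℓ 𝔭 ↔ SplitsIn K' 𝔭)) ∧
          Tendsto (proportion (D.StarkAtPart w₀ ℓ)) atTop (𝓝 (1 / (Module.finrank K K' : ℝ))) ∧
          (D.StarkPart w₀ ℓ ↔ Module.finrank K K' = 1) ∧
          (IsCyclic (K' ≃ₐ[K] K') → Module.finrank K K' = 1) ∧
          (Module.finrank K K' = 1 ∨
            (ℓ ∣ Module.finrank K K' ∧ 2 * ℓ ≤ Module.finrank K K')) := by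
    by_cases hQ : SQ K (fun ρ : G => deriv (D.zeta ρ) 0) w₀
    · exact Or.inr (ell_main (K := K) (fun ρ : G => deriv (D.zeta ρ) 0) w₀ hfin.toFinset
        (fun v hv => D.unramified v (by simpa using hv)) (fun v => D.art v.asIdeal)
        (fun v hv => D.art_frob v (by simpa using hv)) hQ ℓ hℓ)
    · exact Or.inl ⟨fun h => hQ (rat_of_sl _ w₀ ℓ h),
        fun 𝔭 h => hQ (rat_of_tl _ w₀ ℓ (D.art 𝔭.asIdeal) 𝔭 h)⟩
  have hℓ0 : (0 : ℝ) < ℓ := by exact_mod_cast hℓ.pos
  have hℓ2 : (2 : ℝ) ≤ ℓ := by exact_mod_cast hℓ.two_le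
  constructor
  · rcases hmain with ⟨h1, h2⟩ | ⟨K', _, _, _, bad, -, -, h3, h4, -, h5⟩
    · constructor
      · exact fun h => absurd h h1
      · rintro ⟨c, hc, hX⟩
        exfalso
        obtain ⟨X, hX⟩ := hX.exists
        have h3 : IsEmpty {𝔭 : HeightOneSpectrum (𝓞 K) //
            D.StarkAtPart w₀ ℓ 𝔭 ∧ Ideal.absNorm 𝔭.asIdeal ≤ X} := ⟨fun x => h2 x.1 x.2.1⟩
        unfold proportion at hX
        rw [Nat.card_of_isEmpty, Nat.cast_zero, zero_div] at hX
        have h4 : (0 : ℝ) < 1 / (2 * ℓ) := by positivity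
        linarith
    · rw [h4]
      have h6 : (1 : ℝ) / (2 * ℓ) ≤ 1 / 4 := by
        apply one_div_le_one_div_of_le (by norm_num)
        linarith
      constructor
      · intro h
        rw [h, Nat.cast_one, div_one] at h3
        exact ⟨1 / 2, by linarith, h3.eventually_const_le (by norm_num)⟩
      · rintro ⟨c, hc, hX⟩
        rcases h5 with h5 | ⟨-, h5⟩
        · exact h5
        · exfalso
          have h6 := ge_of_tendsto h3 hX
          have h7 : (1 : ℝ) / (Module.finrank K K' : ℝ) ≤ 1 / (2 * ℓ) := by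
            apply one_div_le_one_div_of_le (by positivity)
            exact_mod_cast h5
          linarith
  · rcases hmain with h | ⟨K', i1, i2, i3, bad, h1, h2, h3, h4, h5, h6⟩
    · exact Or.inl h
    · refine Or.inr ⟨K', i1, i2, i3, bad, h1, h2, h3, h4, fun h7 => ⟨?_, fun h8 => h7 (h5 h8)⟩⟩
      rcases h6 with h6 | h6
      · exact absurd h6 h7
      · exact h6.1

end Pool.Agent.Results.MP_d9f52e_nt.PrimeParts
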