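import Pool.Agent.J6H32.SR.Fin

/-!
# Stark's conjecture over complex cubic fields and a quarter of the prime ideals

Let `K` be a complex cubic field, `𝔣 ≠ 𝓞 K` a nonzero ideal, `H / K` a finite abelian extension which is
unramified outside `𝔣` and infinity, for example the narrow ray class field `K(𝔣)`, and `w₀` a place of
`H` over the complex place of `K`.

`Stark` is the question: there is a `u` in `H^*` with the properties 1, 2, 3. `StarkAt 𝔭` is its version
for the prime ideal `𝔭`: a unit `x ≡ 1` modulo all prime ideals over `𝔭` with the absolute values given by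
the derivatives at `s = 0` of the functions `ζ_𝔣 (ρ, s) - N𝔭^(1-s) ζ_𝔣 (σ_𝔭⁻¹ ρ, s)`.

Theorem. `Stark` is true if and only if the `𝔭` for which `StarkAt 𝔭` is true make up more than a
quarter of all prime ideals. More precisely, either `Stark` and all the `StarkAt 𝔭` are false, or there
are a finite Galois extension `K' / K` and a finite set of prime ideals outside of which `StarkAt 𝔭` is
true exactly for the `𝔭` which split completely in `K'`; then `Stark` is true if and only if `K' = K`,
and `K' / K` is not cyclic for `K' ≠ K`.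

For the proof let `m` be a positive integer and `u` an element of `H^*` such that the condition 2 is true
for `u^(1/m)`, with the factor `1` in place of `1 / e`. Let `Γ` be the Galois group over `K` of the
normal closure of `H (u^(1/m))`. Then `StarkAt 𝔭` is true if and only if the Frobenius automorphism of
`𝔭` is in the centre `Z` of `Γ`, and a group with a cyclic quotient `Γ / Z` is commutative.
-/

set_option autoImplicit false

open NumberField IsDedekindDomain Filter Topology

namespace Pool.Agent.Results.MP_d9f52e_nt.QuarterOfPrimes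

open Pool.Agent.J6H32.SR
open Pool.Agent.K3h30.RS (SplitsIn)

/-- `K` is a complex cubic field: a cubic field with exactly one complex place. -/
def ComplexCubic (K : Type) [Field K] [NumberField K] : Prop :=
  Module.finrank ℚ K = 3 ∧ InfinitePlace.nrRealPlaces K = 1 ∧ InfinitePlace.nrComplexPlaces K = 1

/-- The number of the prime ideals of norm at most `X` with the property `P`, divided by the number of
the prime numbers up to `X`. -/
noncomputable def proportion {K : Type} [Field K] [NumberField K]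
    (P : HeightOneSpectrum (𝓞 K) → Prop) (X : ℕ) : ℝ :=
  (Nat.card {𝔭 : HeightOneSpectrum (𝓞 K) // P 𝔭 ∧ Ideal.absNorm 𝔭.asIdeal ≤ X} : ℝ) /
    (Nat.primeCounting X : ℝ)

theorem result (K H G : Type) [Field K] [NumberField K] [Field H] [NumberField H] [Algebra K H]
    [CommGroup G] [Finite G] [MulSemiringAction G H] [IsGaloisGroup G K H] (_hK : ComplexCubic K)
    (𝔣 : Ideal (𝓞 K)) (h𝔣 : 𝔣 ≠ ⊥) (_h𝔣' : 𝔣 ≠ ⊤) (D : ZetaData K H G 𝔣) (w₀ : InfinitePlace H)
    (_hw₀ : (w₀.comap (algebraMap K H)).IsComplex) :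
    -- more than a quarter of the prime ideals
    (D.Stark w₀ ↔ ∃ c : ℝ, 1 / 4 < c ∧ ∀ᶠ X : ℕ in atTop, c ≤ proportion (D.StarkAt w₀) X) ∧
    -- the field
    ((¬ D.Stark w₀ ∧ ∀ 𝔭 : HeightOneSpectrum (𝓞 K), ¬ D.StarkAt w₀ 𝔭) ∨
      ∃ (K' : Type) (_ : Field K') (_ : NumberField K') (_ : Algebra K K')
        (bad : Finset (HeightOneSpectrum (𝓞 K))), IsGalois K K' ∧
        (∀ 𝔭 : HeightOneSpectrum (𝓞 K), 𝔭 ∉ bad → (D.StarkAt w₀ 𝔭 ↔ SplitsIn K' 𝔭)) ∧
        Tendsto (proportion (D.StarkAt w₀)) atTop (𝓝 (1 / (Module.finrank K K' : ℝ))) ∧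
        (D.Stark w₀ ↔ Module.finrank K K' = 1) ∧
        (IsCyclic (K' ≃ₐ[K] K') → Module.finrank K K' = 1)) := by
  have hfin : {𝔭 : HeightOneSpectrum (𝓞 K) | 𝔣 ≤ 𝔭.asIdeal}.Finite := by
    refine (Ideal.finite_factors h𝔣).subset ?_
    intro 𝔭 h𝔭
    exact Ideal.dvd_iff_le.2 h𝔭
  have hmain := main (K := K) (fun ρ : G => deriv (D.zeta ρ) 0) w₀ hfin.toFinset
    (fun v hv => D.unramified v (by simpa using hv)) (fun v => D.art v.asIdeal)
    (fun v hv => D.art_frob v (by simpa using hv))
  change (¬ D.Stark w₀ ∧ ∀ 𝔭 : HeightOneSpectrum (𝓞 K), ¬ D.StarkAt w₀ 𝔭) ∨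
      ∃ (K' : Type) (_ : Field K') (_ : NumberField K') (_ : Algebra K K')
        (bad : Finset (HeightOneSpectrum (𝓞 K))), IsGalois K K' ∧
        (∀ 𝔭 : HeightOneSpectrum (𝓞 K), 𝔭 ∉ bad → (D.StarkAt w₀ 𝔭 ↔ SplitsIn K' 𝔭)) ∧
        Tendsto (proportion (D.StarkAt w₀)) atTop (𝓝 (1 / (Module.finrank K K' : ℝ))) ∧
        (D.Stark w₀ ↔ Module.finrank K K' = 1) ∧
        (IsCyclic (K' ≃ₐ[K] K') → Module.finrank K K' = 1) ∧
        (Module.finrank K K' = 1 ∨ 4 ≤ Module.finrank K K') at hmain
  constructor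
  · rcases hmain with ⟨h1, h2⟩ | ⟨K', _, _, _, bad, -, -, h3, h4, -, h5⟩
    · constructor
      · exact fun h => absurd h h1
      · rintro ⟨c, hc, hX⟩
        exfalso
        obtain ⟨X, hX⟩ := hX.exists
        have h3 : IsEmpty {𝔭 : HeightOneSpectrum (𝓞 K) //
            D.StarkAt w₀ 𝔭 ∧ Ideal.absNorm 𝔭.asIdeal ≤ X} := ⟨fun x => h2 x.1 x.2.1⟩
        unfold proportion at hX
        rw [Nat.card_of_isEmpty, Nat.cast_zero, zero_div] at hX
        linarith
    · rw [h4]
      constructor
      · intro h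
        rw [h, Nat.cast_one, div_one] at h3
        exact ⟨1 / 2, by norm_num, h3.eventually_const_le (by norm_num)⟩
      · rintro ⟨c, hc, hX⟩
        rcases h5 with h5 | h5
        · exact h5
        · exfalso
          have h6 := ge_of_tendsto h3 hX
          have h7 : (1 : ℝ) / (Module.finrank K K' : ℝ) ≤ 1 / 4 := by
            apply one_div_le_one_div_of_le (by norm_num)
            exact_mod_cast h5
          linarith
  · rcases hmain with h | ⟨K', i1, i2, i3, bad, h1, h2, h3, h4, h5, -⟩
    · exact Or.inl h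
    · exact Or.inr ⟨K', i1, i2, i3, bad, h1, h2, h3, h4, h5⟩

end Pool.Agent.Results.MP_d9f52e_nt.QuarterOfPrimes
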